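import Mathlib
import Pool.Agent.V11256.KS.Main

/-!
# The free group Bernoulli shift graph has no measurable kernel

For every `n ≥ 2` the directed Schreier graph of the Bernoulli shift of the free group of rank `n`
admits no measurable kernel. The proof compares entropies: a kernel would be a factor of iid
process in which the values at the `n` out-neighbours determine the value at the root, whereas for
factor of iid processes the entropy of an out-star exceeds `n` times the entropy of a vertex.
-/

namespace Pool.Agent.Results.MP_2e25e6_lc.NoMeasurableKernel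

open MeasureTheory V11256.KS

variable {n : ℕ}

/-- The free part of the Bernoulli shift of the free group of rank `n` on `{0,1}^{F_n}`, where the
shift is `(g · x)(h) = x (h g)`. -/
def freePart (n : ℕ) : Set (Cfg n) := {x | ∀ g : FreeGroup (Fin n), g ≠ 1 → shift g x ≠ x}

/-- The arcs `x → a_i · x` (`x` in the free part). -/
def Arc (x y : Cfg n) : Prop := x ∈ freePart n ∧ ∃ i : Fin n, y = shift (FreeGroup.of i) x

/-- The underlying graph. -/
def Adj (x y : Cfg n) : Prop := Arc x y ∨ Arc y x

/-- `A` is a kernel of the directed graph induced on `Y`. -/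
def IsKernel (Y A : Set (Cfg n)) : Prop :=
  A ⊆ Y ∧ (∀ x ∈ A, ∀ y ∈ A, ¬ Adj x y) ∧ ∀ x ∈ Y, x ∉ A → ∃ y ∈ A, Arc x y

/-- **Main theorem.** For `n ≥ 2` there is no measurable kernel: for every shift-invariant conull
Borel subset `Y` of the free part, the directed graph induced on `Y` has no Borel kernel. -/
theorem result (n : ℕ) (hn : 2 ≤ n) (Y : Set (Cfg n)) (hY : MeasurableSet Y)
    (hYF : Y ⊆ freePart n) (hinv : ∀ g, ∀ x ∈ Y, shift g x ∈ Y) (hμ : mu n Y = 1) :
    ¬ ∃ A : Set (Cfg n), MeasurableSet A ∧ IsKernel Y A := by
  classical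
  rintro ⟨A, hA, hAY, hind, hdom⟩
  have hf : Measurable (fun x : Cfg n => decide (x ∈ A)) := by
    apply measurable_to_countable'
    intro b
    cases b with
    | true =>
      have : (fun x : Cfg n => decide (x ∈ A)) ⁻¹' {true} = A := by
        ext x; simp
      rw [this]
      exact hA
    | false =>
      have : (fun x : Cfg n => decide (x ∈ A)) ⁻¹' {false} = Aᶜ := by
        ext x; simp
      rw [this]
      exact hA.compl
  have hae : ∀ᵐ x ∂(mu n), x ∈ Y := by
    rw [← prob_compl_eq_zero_iff hY] at hμ
    exact hμ
  refine no_kernel_fun (by omega) (fun x => decide (x ∈ A)) hf ?_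
  filter_upwards [hae] with x hx
  simp only [decide_eq_true_eq, decide_eq_false_iff_not]
  constructor
  · intro hxA i hi
    exact hind x hxA _ hi (Or.inl ⟨hYF hx, i, rfl⟩)
  · intro hall
    by_contra hxA
    obtain ⟨y, hyA, _, i, rfl⟩ := hdom x hx hxA
    exact hall i hyA

end Pool.Agent.Results.MP_2e25e6_lc.NoMeasurableKernel
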